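import Mathlib

/-!
# `1 - (z₁ + z₂) / 2` is cyclic in `𝓓_β(𝔻²)` for all `β ≤ 2`

By duality, it suffices to show that a function `φ` on `ℕ × ℕ` with
`φ (k, l) = (φ (k + 1, l) + φ (k, l + 1)) / 2` and `∑ |φ (k, l)| ^ 2 (k + l + 2) ^ (-β) < ∞` is zero.
For such `φ`, with `P` the averaging operator and `D (k, l) = φ (k + 1, l) - φ (k, l + 1)`, one has
`P |φ|² = |φ|² + |D|² / 4` and `P |D|² ≥ |D|²`. Hence `|φ|² + m |D|² / 4 ≤ P^m |φ|²`, which is at most the
sum of `|φ|²` over the antidiagonal `k + l + m`; as the harmonic series diverges, `D = 0`, so that `φ` is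
constant, and this constant is `0`.
-/

set_option autoImplicit false

open Finset

namespace Pool.Agent.Results.MP_f86430_an.CyclicLeTwo

/-- The function `g` on the bidisk `{z : |z₁| < 1, |z₂| < 1}` is the sum of the power series with
coefficients `a`. -/
def HasCoeffs (g : ℂ × ℂ → ℂ) (a : ℕ × ℕ → ℂ) : Prop :=
  ∀ z : ℂ × ℂ, ‖z.1‖ < 1 → ‖z.2‖ < 1 →
    HasSum (fun J : ℕ × ℕ => a J * (z.1 ^ J.1 * z.2 ^ J.2)) (g z)

/-- The terms `|a_J| ^ 2 (|J| + 2) ^ β` of the series for the square of the norm of `𝓓_β(𝔻²)`. -/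
noncomputable def term (β : ℝ) (a : ℕ × ℕ → ℂ) (J : ℕ × ℕ) : ℝ :=
  ‖a J‖ ^ 2 * ((J.1 : ℝ) + (J.2 : ℝ) + 2) ^ β

/-- `f` is a cyclic vector of `𝓓_β(𝔻²)`: it is in this space, and for all `g` in this space, and all
`ε > 0`, there is a polynomial `p` such that `p f - g` is in this space, and the square of its norm is
less than `ε`. -/
def IsCyclic (β : ℝ) (f : ℂ × ℂ → ℂ) : Prop :=
  (∃ a, HasCoeffs f a ∧ Summable (term β a)) ∧
    ∀ g a, HasCoeffs g a → Summable (term β a) → ∀ ε : ℝ, 0 < ε →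
      ∃ (p : MvPolynomial (Fin 2) ℂ) (c : ℕ × ℕ → ℂ),
        HasCoeffs (fun z => MvPolynomial.eval ![z.1, z.2] p * f z - g z) c ∧
          Summable (term β c) ∧ ∑' J, term β c J < ε

/-! ### The divergence argument -/

theorem nonpos_of_summable {S : ℕ → ℝ} {β : ℝ} (hβ : β ≤ 2) (hS0 : ∀ n, 0 ≤ S n)
    (hS : Summable fun n : ℕ => S n * ((n : ℝ) + 2) ^ (-β)) {d : ℝ} {c : ℕ}
    (h : ∀ m : ℕ, (m : ℝ) * d ≤ S (c + m)) : d ≤ 0 := by
  by_contra hd
  push Not at hd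
  have h1 : Summable fun n : ℕ => (2 / d) * (S n * ((n : ℝ) + 2) ^ (-β)) := hS.mul_left _
  have h2 : Summable fun n : ℕ => (2 / d) * (S (n + (2 * c + 2)) *
      (((n + (2 * c + 2) : ℕ) : ℝ) + 2) ^ (-β)) :=
    (summable_nat_add_iff (f := fun n : ℕ => (2 / d) * (S n * ((n : ℝ) + 2) ^ (-β)))
      (2 * c + 2)).2 h1
  have h3 : Summable fun n : ℕ => 1 / (((n + (2 * c + 4) : ℕ) : ℝ)) := by
    refine Summable.of_nonneg_of_le (fun n => by positivity) (fun n => ?_) h2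
    have hm := h (n + (c + 2))
    have hidx : c + (n + (c + 2)) = n + (2 * c + 2) := by ring
    rw [hidx] at hm
    have hpos : (0 : ℝ) < ((n + (2 * c + 2) : ℕ) : ℝ) + 2 := by positivity
    have hge1 : (1 : ℝ) ≤ ((n + (2 * c + 2) : ℕ) : ℝ) + 2 := by
      have : (0 : ℝ) ≤ ((n + (2 * c + 2) : ℕ) : ℝ) := by positivity
      linarith
    have hpow : (((n + (2 * c + 2) : ℕ) : ℝ) + 2) ^ (-(2 : ℝ)) ≤
        (((n + (2 * c + 2) : ℕ) : ℝ) + 2) ^ (-β) :=
      Real.rpow_le_rpow_of_exponent_le hge1 (by linarith)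
    have hpow2 : (((n + (2 * c + 2) : ℕ) : ℝ) + 2) ^ (-(2 : ℝ)) =
        1 / ((((n + (2 * c + 2) : ℕ) : ℝ) + 2) ^ 2) := by
      rw [Real.rpow_neg hpos.le]
      norm_num
    set N : ℝ := ((n + (2 * c + 2) : ℕ) : ℝ) + 2 with hN
    have hNeq : (((n + (2 * c + 4) : ℕ) : ℝ)) = N := by
      rw [hN]; push_cast; ring
    rw [hNeq]
    have hmN : N / 2 ≤ ((n + (c + 2) : ℕ) : ℝ) := by
      rw [hN]; push_cast
      have : (0 : ℝ) ≤ (n : ℝ) := by positivity
      have : (0 : ℝ) ≤ (c : ℝ) := by positivity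
      linarith
    have hS' : N / 2 * d ≤ S (n + (2 * c + 2)) :=
      le_trans (mul_le_mul_of_nonneg_right hmN hd.le) hm
    have : N / 2 * d * (1 / N ^ 2) ≤ S (n + (2 * c + 2)) * N ^ (-β) := by
      apply mul_le_mul hS' _ (by positivity) (hS0 _)
      rw [← hpow2]; exact hpow
    calc 1 / N = (2 / d) * (N / 2 * d * (1 / N ^ 2)) := by
          field_simp
      _ ≤ _ := mul_le_mul_of_nonneg_left this (by positivity)
  have h4 := (summable_nat_add_iff (f := fun n : ℕ => 1 / ((n : ℝ))) (2 * c + 4)).1 h3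
  exact Real.not_summable_one_div_natCast h4

/-- Iterated averages. -/
noncomputable def avg (ψ : ℕ → ℕ → ℝ) : ℕ → ℕ → ℕ → ℝ
  | 0, k, l => ψ k l
  | m + 1, k, l => (avg ψ m (k + 1) l + avg ψ m k (l + 1)) / 2

theorem le_avg {ψ δ : ℕ → ℕ → ℝ} (h1 : ∀ k l, ψ k l + δ k l ≤ (ψ (k + 1) l + ψ k (l + 1)) / 2)
    (h2 : ∀ k l, δ k l ≤ (δ (k + 1) l + δ k (l + 1)) / 2) (m k l : ℕ) :
    ψ k l + m * δ k l ≤ avg ψ m k l := by
  induction m generalizing k l with
  | zero => simp [avg]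
  | succ m ih =>
    have i1 := ih (k + 1) l
    have i2 := ih k (l + 1)
    have h3 : (m : ℝ) * δ k l ≤ m * ((δ (k + 1) l + δ k (l + 1)) / 2) :=
      mul_le_mul_of_nonneg_left (h2 k l) (by positivity)
    have h4 := h1 k l
    simp only [avg]
    push_cast
    linarith

theorem avg_le {ψ : ℕ → ℕ → ℝ} (h0 : ∀ k l, 0 ≤ ψ k l) (m k l : ℕ) :
    avg ψ m k l ≤ ∑ q ∈ antidiagonal (k + l + m), ψ q.1 q.2 := by
  induction m generalizing k l with
  | zero =>
    simp only [avg, add_zero]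
    have hm : ((k, l) : ℕ × ℕ) ∈ antidiagonal (k + l) := by simp
    exact Finset.single_le_sum (f := fun q : ℕ × ℕ => ψ q.1 q.2) (fun q _ => h0 _ _) hm
  | succ m ih =>
    have i1 := ih (k + 1) l
    have i2 := ih k (l + 1)
    have e1 : k + 1 + l + m = k + l + (m + 1) := by ring
    have e2 : k + (l + 1) + m = k + l + (m + 1) := by ring
    rw [e1] at i1
    rw [e2] at i2
    simp only [avg]
    linarith

theorem eq_zero_of_avg {φ : ℕ → ℕ → ℂ} (hφ : ∀ k l, φ k l = (φ (k + 1) l + φ k (l + 1)) / 2)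
    {β : ℝ} (hβ : β ≤ 2)
    (hs : Summable fun J : ℕ × ℕ => ‖φ J.1 J.2‖ ^ 2 * ((J.1 : ℝ) + (J.2 : ℝ) + 2) ^ (-β)) :
    ∀ k l, φ k l = 0 := by
  set S : ℕ → ℝ := fun n => ∑ q ∈ antidiagonal n, ‖φ q.1 q.2‖ ^ 2 with hSdef
  have hS0 : ∀ n, 0 ≤ S n := fun n => Finset.sum_nonneg fun q _ => by positivity
  have hS : Summable fun n : ℕ => S n * ((n : ℝ) + 2) ^ (-β) := by
    have h1 : Summable ((fun J : ℕ × ℕ => ‖φ J.1 J.2‖ ^ 2 * ((J.1 : ℝ) + (J.2 : ℝ) + 2) ^ (-β)) ∘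
        (Finset.HasAntidiagonal.sigmaAntidiagonalEquivProd (A := ℕ))) :=
      (Finset.HasAntidiagonal.sigmaAntidiagonalEquivProd (A := ℕ)).summable_iff.2 hs
    have h2 := h1.sigma
    refine h2.congr fun n => ?_
    rw [tsum_fintype]
    rw [hSdef]
    simp only [Function.comp_def, Finset.HasAntidiagonal.sigmaAntidiagonalEquivProd_apply]
    rw [Finset.sum_mul]
    rw [← Finset.sum_coe_sort (antidiagonal n)
      (fun q : ℕ × ℕ => ‖φ q.1 q.2‖ ^ 2 * ((n : ℝ) + 2) ^ (-β))]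
    refine Finset.sum_congr rfl fun q _ => ?_
    have hq : (q : ℕ × ℕ).1 + (q : ℕ × ℕ).2 = n := Finset.HasAntidiagonal.mem_antidiagonal.1 q.2
    have hq' : ((q : ℕ × ℕ).1 : ℝ) + ((q : ℕ × ℕ).2 : ℝ) = (n : ℝ) := by exact_mod_cast hq
    rw [hq']
  -- the differences vanish
  have hD : ∀ k l, φ (k + 1) l - φ k (l + 1) = 0 := by
    intro k l
    set ψ : ℕ → ℕ → ℝ := fun k l => ‖φ k l‖ ^ 2 with hψ
    set δ : ℕ → ℕ → ℝ := fun k l => ‖φ (k + 1) l - φ k (l + 1)‖ ^ 2 / 4 with hδ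
    have par : ∀ u v : ℂ, ‖(u + v) / 2‖ ^ 2 + ‖u - v‖ ^ 2 / 4 = (‖u‖ ^ 2 + ‖v‖ ^ 2) / 2 := by
      intro u v
      have := parallelogram_law_with_norm ℝ u v
      have h2 : ‖(u + v) / 2‖ = ‖u + v‖ / 2 := by
        rw [norm_div]; norm_num
      rw [h2]
      nlinarith [this]
    have h1 : ∀ k l, ψ k l + δ k l ≤ (ψ (k + 1) l + ψ k (l + 1)) / 2 := by
      intro k l
      simp only [hψ, hδ]
      rw [← par (φ (k + 1) l) (φ k (l + 1)), ← hφ k l]
    have h2 : ∀ k l, δ k l ≤ (δ (k + 1) l + δ k (l + 1)) / 2 := by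
      intro k l
      simp only [hδ]
      have e : φ (k + 1) l - φ k (l + 1) =
          ((φ (k + 1 + 1) l - φ (k + 1) (l + 1)) + (φ (k + 1) (l + 1) - φ k (l + 1 + 1))) / 2 := by
        rw [hφ (k + 1) l, hφ k (l + 1)]
        ring
      have := par (φ (k + 1 + 1) l - φ (k + 1) (l + 1)) (φ (k + 1) (l + 1) - φ k (l + 1 + 1))
      rw [← e] at this
      have h0 : 0 ≤ ‖(φ (k + 1 + 1) l - φ (k + 1) (l + 1)) -
          (φ (k + 1) (l + 1) - φ k (l + 1 + 1))‖ ^ 2 / 4 := by positivity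
      linarith
    have h3 : ∀ m : ℕ, (m : ℝ) * δ k l ≤ S (k + l + m) := by
      intro m
      have i1 := le_avg h1 h2 m k l
      have i2 := avg_le (ψ := ψ) (fun k l => by positivity) m k l
      have i3 : 0 ≤ ψ k l := by positivity
      simp only [hSdef]
      simp only [hψ] at i2 i3 i1
      linarith
    have h4 := nonpos_of_summable hβ hS0 hS h3
    have h5 : ‖φ (k + 1) l - φ k (l + 1)‖ ^ 2 ≤ 0 := by
      simp only [hδ] at h4
      linarith
    have h6 : ‖φ (k + 1) l - φ k (l + 1)‖ = 0 := by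
      have := sq_nonneg ‖φ (k + 1) l - φ k (l + 1)‖
      exact pow_eq_zero_iff (two_ne_zero) |>.1 (le_antisymm h5 this)
    exact norm_eq_zero.1 h6
  have hk : ∀ k l, φ (k + 1) l = φ k l := by
    intro k l
    have := hD k l
    have h2 := hφ k l
    have h3 : φ k (l + 1) = φ (k + 1) l := by linear_combination -this
    rw [h3] at h2
    rw [h2]; ring
  have hl : ∀ k l, φ k (l + 1) = φ k l := by
    intro k l
    have := hD k l
    rw [hk k l] at this
    linear_combination -this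
  have hc : ∀ k l, φ k l = φ 0 0 := by
    intro k l
    have h1 : ∀ l, φ 0 l = φ 0 0 := by
      intro l
      induction l with
      | zero => rfl
      | succ l ih => rw [hl, ih]
    induction k with
    | zero => exact h1 l
    | succ k ih => rw [hk, ih]
  have h7 : ‖φ 0 0‖ ^ 2 ≤ 0 := by
    refine nonpos_of_summable (c := 0) hβ hS0 hS fun m => ?_
    simp only [hSdef, zero_add]
    have : ∑ q ∈ antidiagonal m, ‖φ q.1 q.2‖ ^ 2 = ∑ q ∈ antidiagonal m, ‖φ 0 0‖ ^ 2 :=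
      Finset.sum_congr rfl fun q _ => by rw [hc]
    rw [this, Finset.sum_const, Finset.Nat.card_antidiagonal, nsmul_eq_mul]
    push_cast
    nlinarith [sq_nonneg ‖φ 0 0‖]
  intro k l
  rw [hc]
  have := sq_nonneg ‖φ 0 0‖
  exact norm_eq_zero.1 (pow_eq_zero_iff (two_ne_zero) |>.1 (le_antisymm h7 this))

/-! ### The Hilbert space argument -/

/-- The model Hilbert space. -/
abbrev H : Type := lp (fun _ : ℕ × ℕ => ℂ) 2

/-- The weights `(|J| + 2) ^ (β / 2)`. -/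
noncomputable def W (β : ℝ) (J : ℕ × ℕ) : ℝ := ((J.1 : ℝ) + (J.2 : ℝ) + 2) ^ (β / 2)

theorem W_pos (β : ℝ) (J : ℕ × ℕ) : 0 < W β J := by
  unfold W; positivity

theorem W_sq (β : ℝ) (J : ℕ × ℕ) : W β J ^ 2 = ((J.1 : ℝ) + (J.2 : ℝ) + 2) ^ β := by
  unfold W
  have h : (0 : ℝ) < (J.1 : ℝ) + (J.2 : ℝ) + 2 := by positivity
  rw [← Real.rpow_natCast, ← Real.rpow_mul h.le]
  norm_num

/-- The function `1 - (z₁ + z₂) / 2`. -/
noncomputable def f0 (z : ℂ × ℂ) : ℂ := 1 - (z.1 + z.2) / 2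

theorem hasSum_of_eq {f g : ℕ × ℕ → ℂ} {a b : ℂ} (h : HasSum f a) (hf : ∀ J, g J = f J)
    (ha : b = a) : HasSum g b := by
  rw [ha, funext hf]; exact h

/-- The elements of the model space which come from the functions `p f`. -/
noncomputable def M (β : ℝ) : Submodule ℂ H where
  carrier := {x | ∃ p : MvPolynomial (Fin 2) ℂ,
    HasCoeffs (fun z => MvPolynomial.eval ![z.1, z.2] p * f0 z) (fun J => ((W β J)⁻¹ : ℝ) * x J)}
  zero_mem' := ⟨0, fun z _ _ => by simp⟩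
  add_mem' := by
    rintro x y ⟨p, hp⟩ ⟨q, hq⟩
    refine ⟨p + q, fun z h1 h2 => ?_⟩
    refine hasSum_of_eq ((hp z h1 h2).add (hq z h1 h2)) (fun J => ?_) ?_
    · simp only [lp.coeFn_add, Pi.add_apply]
      ring
    · simp only [map_add]; ring
  smul_mem' := by
    rintro c x ⟨p, hp⟩
    refine ⟨MvPolynomial.C c * p, fun z h1 h2 => ?_⟩
    refine hasSum_of_eq ((hp z h1 h2).mul_left c) (fun J => ?_) ?_
    · simp only [lp.coeFn_smul, Pi.smul_apply, smul_eq_mul]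
      ring
    · simp only [map_mul, MvPolynomial.eval_C]; ring

/-- The vector of the model space that comes from `z ^ J f`. -/
noncomputable def vec (β : ℝ) (J : ℕ × ℕ) : H :=
  lp.single 2 J ((W β J : ℝ) : ℂ) - lp.single 2 (J.1 + 1, J.2) (((W β (J.1 + 1, J.2) : ℝ) : ℂ) / 2)
    - lp.single 2 (J.1, J.2 + 1) (((W β (J.1, J.2 + 1) : ℝ) : ℂ) / 2)

theorem hasSum_one (β : ℝ) (z : ℂ × ℂ) (K : ℕ × ℕ) (c : ℂ) :
    HasSum (fun L : ℕ × ℕ => (((W β L)⁻¹ : ℝ) : ℂ) *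
      ((lp.single 2 K (((W β K : ℝ) : ℂ) * c) : H) : ∀ _ : ℕ × ℕ, ℂ) L * (z.1 ^ L.1 * z.2 ^ L.2))
      (c * (z.1 ^ K.1 * z.2 ^ K.2)) := by
  have h := hasSum_single (f := fun L : ℕ × ℕ => (((W β L)⁻¹ : ℝ) : ℂ) *
    ((lp.single 2 K (((W β K : ℝ) : ℂ) * c) : H) : ∀ _ : ℕ × ℕ, ℂ) L * (z.1 ^ L.1 * z.2 ^ L.2)) K
    (fun L hL => by
      rw [lp.single_apply_ne (E := fun _ : ℕ × ℕ => ℂ) 2 K _ hL]
      simp)
  refine hasSum_of_eq h (fun J => rfl) ?_
  rw [lp.single_apply_self]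
  have := (W_pos β K).ne'
  have h' : ((W β K : ℝ) : ℂ) ≠ 0 := by exact_mod_cast this
  push_cast
  field_simp

theorem hasSum_vec (β : ℝ) (J : ℕ × ℕ) (z : ℂ × ℂ) :
    HasSum (fun L : ℕ × ℕ => (((W β L)⁻¹ : ℝ) : ℂ) * vec β J L * (z.1 ^ L.1 * z.2 ^ L.2))
      (z.1 ^ J.1 * z.2 ^ J.2 * f0 z) := by
  have h1 := hasSum_one β z J 1
  have h2 := hasSum_one β z (J.1 + 1, J.2) (1 / 2)
  have h3 := hasSum_one β z (J.1, J.2 + 1) (1 / 2)
  refine hasSum_of_eq ((h1.sub h2).sub h3) (fun L => ?_) ?_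
  · simp only [vec, lp.coeFn_sub, Pi.sub_apply, mul_one, mul_one_div]
    ring
  · simp only [f0]
    ring

theorem vec_mem (β : ℝ) (J : ℕ × ℕ) : vec β J ∈ M β := by
  refine ⟨MvPolynomial.X 0 ^ J.1 * MvPolynomial.X 1 ^ J.2, fun z _ _ => ?_⟩
  refine hasSum_of_eq (hasSum_vec β J z) (fun L => rfl) ?_
  simp only [map_mul, map_pow, MvPolynomial.eval_X, Matrix.cons_val_zero, Matrix.cons_val_one]

theorem orth (β : ℝ) (hβ : β ≤ 2) : (M β)ᗮ = ⊥ := by
  rw [Submodule.eq_bot_iff]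
  intro x hx
  have hx' : ∀ J, inner ℂ (vec β J) x = 0 := fun J =>
    (Submodule.mem_orthogonal _ _).1 hx _ (vec_mem β J)
  set φ : ℕ → ℕ → ℂ := fun k l => ((W β (k, l) : ℝ) : ℂ) * x (k, l) with hφ
  have h1 : ∀ k l, φ k l = (φ (k + 1) l + φ k (l + 1)) / 2 := by
    intro k l
    have h := hx' (k, l)
    simp only [vec, inner_sub_left] at h
    rw [lp.inner_single_left, lp.inner_single_left, lp.inner_single_left] at h
    simp only [RCLike.inner_apply, map_div₀, Complex.conj_ofReal, map_ofNat] at h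
    simp only [hφ]
    linear_combination h
  have h2 : Summable fun J : ℕ × ℕ => ‖φ J.1 J.2‖ ^ 2 * ((J.1 : ℝ) + (J.2 : ℝ) + 2) ^ (-β) := by
    have hsum : Summable fun J : ℕ × ℕ => ‖x J‖ ^ 2 := by
      have := (lp.memℓp x).summable (by norm_num : 0 < (2 : ENNReal).toReal)
      refine this.congr fun J => ?_
      simp
    refine hsum.congr fun J => ?_
    have hpos : (0 : ℝ) < (J.1 : ℝ) + (J.2 : ℝ) + 2 := by positivity
    simp only [hφ, norm_mul, Complex.norm_real, Real.norm_eq_abs, mul_pow, sq_abs, Prod.mk.eta]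
    rw [W_sq, Real.rpow_neg hpos.le]
    have : ((J.1 : ℝ) + (J.2 : ℝ) + 2) ^ β ≠ 0 := by positivity
    field_simp
  have h3 := eq_zero_of_avg h1 hβ h2
  ext J
  have h4 := h3 J.1 J.2
  simp only [hφ, Prod.mk.eta, mul_eq_zero] at h4
  have h5 : ((W β J : ℝ) : ℂ) ≠ 0 := by exact_mod_cast (W_pos β J).ne'
  simpa [h5] using h4

/-- `1 - (z₁ + z₂) / 2` is cyclic in `𝓓_β(𝔻²)` for all real `β ≤ 2`. -/
theorem result : ∀ β : ℝ, β ≤ 2 → IsCyclic β (fun z : ℂ × ℂ => 1 - (z.1 + z.2) / 2) := by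
  intro β hβ
  have hcl : (M β).topologicalClosure = ⊤ :=
    (Submodule.topologicalClosure_eq_top_iff).2 (orth β hβ)
  refine ⟨?_, ?_⟩
  · -- `f` is in the space
    refine ⟨fun J => (((W β J)⁻¹ : ℝ) : ℂ) * vec β (0, 0) J, ?_, ?_⟩
    · intro z h1 h2
      refine hasSum_of_eq (hasSum_vec β (0, 0) z) (fun L => rfl) ?_
      simp [f0]
    · have hsum : Summable fun J : ℕ × ℕ => ‖vec β (0, 0) J‖ ^ 2 := by
        have := (lp.memℓp (vec β (0, 0))).summable (by norm_num : 0 < (2 : ENNReal).toReal)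
        refine this.congr fun J => ?_
        simp
      refine hsum.congr fun J => ?_
      simp only [term]
      rw [← W_sq, norm_mul, Complex.norm_real, Real.norm_eq_abs, mul_pow, sq_abs]
      have := (W_pos β J).ne'
      field_simp
  · intro g a hg ha ε hε
    -- the vector of `g`
    have hG : Memℓp (fun J : ℕ × ℕ => ((W β J : ℝ) : ℂ) * a J) 2 := by
      rw [memℓp_gen_iff (by norm_num : 0 < (2 : ENNReal).toReal)]
      refine ha.congr fun J => ?_
      simp only [term]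
      rw [← W_sq, norm_mul, Complex.norm_real, Real.norm_eq_abs]
      have h2 : ((2 : ENNReal).toReal) = ((2 : ℕ) : ℝ) := by norm_num
      rw [h2, Real.rpow_natCast, mul_pow, sq_abs]
      ring
    set G : H := ⟨fun J : ℕ × ℕ => ((W β J : ℝ) : ℂ) * a J, hG⟩ with hGdef
    have hmem : G ∈ closure (M β : Set H) := by
      have : G ∈ (M β).topologicalClosure := by rw [hcl]; trivial
      simpa [← Submodule.topologicalClosure_coe] using this
    obtain ⟨s, hsM, hs⟩ := Metric.mem_closure_iff.1 hmem (Real.sqrt ε) (Real.sqrt_pos.2 hε)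
    obtain ⟨p, hp⟩ := hsM
    have hterm : ∀ J, term β (fun J => (((W β J)⁻¹ : ℝ) : ℂ) * s J - a J) J =
        ‖(s - G) J‖ ^ (2 : ℝ) := by
      intro J
      have hW := (W_pos β J).ne'
      have hW' : ((W β J : ℝ) : ℂ) ≠ 0 := by exact_mod_cast hW
      have e : (((W β J)⁻¹ : ℝ) : ℂ) * s J - a J = (((W β J)⁻¹ : ℝ) : ℂ) * (s - G) J := by
        simp only [lp.coeFn_sub, Pi.sub_apply, hGdef]
        push_cast
        field_simp
      simp only [term]
      rw [e, ← W_sq, norm_mul, Complex.norm_real, Real.norm_eq_abs, mul_pow, sq_abs]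
      have h2 : (2 : ℝ) = ((2 : ℕ) : ℝ) := by norm_num
      rw [h2, Real.rpow_natCast]
      field_simp
    have hsum : HasSum (term β (fun J => (((W β J)⁻¹ : ℝ) : ℂ) * s J - a J)) (‖s - G‖ ^ (2 : ℝ)) := by
      have h := lp.hasSum_norm (E := fun _ : ℕ × ℕ => ℂ) (p := 2)
        (by norm_num : 0 < (2 : ENNReal).toReal) (s - G)
      have h2 : ((2 : ENNReal).toReal) = (2 : ℝ) := by norm_num
      rw [h2] at h
      convert h using 1
      ext J
      exact hterm J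
    refine ⟨p, fun J => (((W β J)⁻¹ : ℝ) : ℂ) * s J - a J, ?_, hsum.summable, ?_⟩
    · intro z h1 h2
      exact hasSum_of_eq ((hp z h1 h2).sub (hg z h1 h2)) (fun J => by ring) rfl
    · rw [hsum.tsum_eq]
      have h1 : ‖s - G‖ < Real.sqrt ε := by
        rw [← dist_eq_norm, dist_comm]; exact hs
      have h2 : ‖s - G‖ ^ 2 < ε := by
        calc ‖s - G‖ ^ 2 < Real.sqrt ε ^ 2 := by gcongr
          _ = ε := Real.sq_sqrt hε.le
      have h3 : ‖s - G‖ ^ (2 : ℝ) = ‖s - G‖ ^ 2 := by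
        have h2 : (2 : ℝ) = ((2 : ℕ) : ℝ) := by norm_num
        rw [h2, Real.rpow_natCast]
      rw [h3]; exact h2

end Pool.Agent.Results.MP_f86430_an.CyclicLeTwo
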